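import Pool.Agent.Lib.MP_5c318e_ag.Fm.Iso
import Pool.Agent.Lib.MP_5c318e_ag.Np.Inf

/-! Linear growth of the degree along a finite projection gives isotriviality. -/

set_option autoImplicit false

namespace Pool.Agent.Lib.MP_5c318e_ag

open Set
open scoped NNReal

namespace Fm

variable {k F ι : Type} [Field k] [CharZero k] [Field F] [Algebra k F] [Fintype ι] [DecidableEq ι]
  {z : ι → F}

/-- the count of `Gr.count`; the bound is needed at finite distance and over the degree only -/
theorem countD (hz : IsTranscendenceBasis k z) (hfg : (⊤ : IntermediateField k F).FG) (j0 : ι)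
    {σ : Type} [Fintype σ] (g : σ → F) : ∃ C : ℕ, ∀ (a : ℕ) (E : Submodule k F),
      (∀ φ ∈ E, ∀ O : ValuationSubring F, (∀ c : k, algebraMap k F c ∈ O) →
        ((∀ j, z j ∈ O) ∨ ∃ γ, 1 < γ ∧ ∀ q : MvPolynomial ι k, q ≠ 0 →
          O.valuation (MvPolynomial.aeval z q) = γ ^ q.totalDegree) →
        ∃ i, O.valuation φ ≤ O.valuation (g i) ^ a) →
      FiniteDimensional k E ∧ Module.finrank k E ≤ C * (a + 1) ^ Fintype.card ι := by
  classical
  let Om := AlgebraicClosure F
  let ψ : F →+* Om := algebraMap F Om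
  have : CharZero F := charZero_of_injective_algebraMap (algebraMap k F).injective
  have : CharZero Om := charZero_of_injective_algebraMap ψ.injective
  let s : ι → Om := fun j => ψ (z j)
  have hb : IsTranscendenceBasis k s := hz.algebraMap_comp (A := Om)
  have halg := alg_of_basis hb
  have hk : ∀ a : k, ψ (algebraMap k F a) = algebraMap k Om a := fun a =>
    (IsScalarTower.algebraMap_apply k F Om a).symm
  set K0 := Subfield.closure ((kR k Om : Set Om) ∪ range s) with hK0
  have hRK : ∀ r ∈ Subring.closure ((kR k Om : Set Om) ∪ range s), r ∈ K0 := fun r hr =>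
    Subfield.subring_closure_le _ hr
  obtain ⟨S, hS⟩ := hfg
  let M := IntermediateField.adjoin K0 (ψ '' S)
  have : Finite (ψ '' S) := (S.finite_toSet.image ψ).to_subtype
  have : FiniteDimensional K0 M :=
    IntermediateField.finiteDimensional_adjoin fun y _ => (halg y).isIntegral
  obtain ⟨θ, hθ⟩ := Field.exists_primitive_element K0 M
  have h1 : M = IntermediateField.adjoin K0 {(θ : Om)} := by
    have := congrArg (IntermediateField.map M.val) hθ
    rw [IntermediateField.adjoin_map, Set.image_singleton, ← AlgHom.fieldRange_eq_map,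
      IntermediateField.fieldRange_val] at this
    exact this.symm
  have hNM : ∀ x : F, ψ x ∈ M := fun x => by
    have h2 : Subfield.closure ((kR k F : Set F) ∪ S) ≤ M.toSubfield.comap ψ := by
      refine Subfield.closure_le.2 ?_
      rintro a (⟨b, rfl⟩ | ha)
      · exact M.algebraMap_mem (⟨_, Subfield.subset_closure (Or.inl ⟨b, (hk b).symm⟩)⟩ : K0)
      · exact IntermediateField.subset_adjoin _ _ ⟨a, ha, rfl⟩
    rw [closure_kR, hS] at h2
    exact h2 trivial
  obtain ⟨r0, hr0, h0, ht1, c0, ht2⟩ := exists_mul_BdR (halg θ)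
  have hM : ∀ y ∈ M, y ∈ IntermediateField.adjoin K0 {r0 * θ} := fun y hy => by
    refine (IntermediateField.adjoin_simple_le_iff (K := IntermediateField.adjoin K0 {r0 * θ})).2
      ?_ (h1 ▸ hy)
    have h2 : r0⁻¹ * (r0 * θ) ∈ IntermediateField.adjoin K0 {r0 * θ} :=
      mul_mem (inv_mem ((IntermediateField.adjoin K0 {r0 * θ}).algebraMap_mem
        ⟨r0, hRK _ hr0⟩)) (IntermediateField.mem_adjoin_simple_self K0 (r0 * θ))
    rwa [inv_mul_cancel_left₀ h0] at h2
  choose r hr hr1 hr2 using fun i => exists_mul_BdR (halg (ψ (g i)))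
  let ρ := ∏ i, r i
  have hρ : ∀ i, ρ * ψ (g i) ∈ BdR (kR k Om) s := fun i => by
    rw [show ρ = _ from (Finset.prod_erase_mul _ _ (Finset.mem_univ i)).symm, mul_assoc]
    exact mul_mem (prod_mem fun j _ => closure_le_BdR (hr j)) (hr2 i)
  choose c hc using fun i => (hρ i).2
  obtain ⟨d, e, he⟩ := Gr.exists_span (indep_kR_iff.2 hb.1) halg (r0 * θ) (1 + c0) le_self_add ht1
    fun v hv => (ht2 v hv).trans le_add_self
  obtain ⟨L, hL⟩ := exists_nat_ge (((∑ i, c i : ℝ≥0) : ℝ) + ((1 + c0) ^ d : ℝ≥0))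
  have hL1 : ((∑ i, c i : ℝ≥0) : ℝ) ≤ Real.exp L := by
    linarith [Real.add_one_le_exp (L : ℝ), ((1 + c0) ^ d : ℝ≥0).2]
  have hL2 : (((1 + c0) ^ d : ℝ≥0) : ℝ) ≤ Real.exp L := by
    linarith [Real.add_one_le_exp (L : ℝ), (∑ i, c i : ℝ≥0).2]
  refine ⟨d * (L + 1) ^ Fintype.card ι, fun a E hE => ?_⟩
  have hdv : ∀ v : Valuation Om ℝ≥0, DV (kR k Om) s v → ∀ q : MvPolynomial ι k, q ≠ 0 →
      (v (ψ (MvPolynomial.aeval z q)) : ℝ) = Real.exp q.totalDegree := fun v hv q hq => by
    let f : k →+* kR k Om := (algebraMap k Om).rangeRestrictField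
    have hi := f.injective
    have h2 := hv (MvPolynomial.map f q)
      ((map_ne_zero_iff _ (MvPolynomial.map_injective _ hi)).2 hq)
    rw [deg_map_inj hi, MvPolynomial.aeval_def, MvPolynomial.eval₂_map] at h2
    rw [← h2, MvPolynomial.aeval_def, MvPolynomial.eval₂_comp_left,
      ← IsScalarTower.algebraMap_eq]
    rfl
  have key : ∀ φ ∈ E, ∀ v : Valuation Om ℝ≥0, (∀ a ∈ kR k Om, v a ≤ 1) →
      ((∀ j, v (s j) ≤ 1) ∨ DV (kR k Om) s v) →
      ∃ i, v (ρ ^ a * ψ φ) ≤ v (ρ * ψ (g i)) ^ a := fun φ hφ v hv hv' => by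
    have he := Valuation.isEquiv_valuation_valuationSubring (v.comap ψ)
    obtain ⟨i, hi⟩ := hE φ hφ (v.comap ψ).valuationSubring (fun a => hv _ ⟨a, (hk a).symm⟩)
      (hv'.imp id fun h => by
        have h0 : (v (ψ (z j0)) : ℝ) = Real.exp 1 := by
          simpa using hdv v h (MvPolynomial.X j0) (MvPolynomial.X_ne_zero j0)
        refine ⟨_, (he.one_lt_iff_one_lt (x := z j0)).1 ?_, fun q hq => ?_⟩
        · change 1 < v (ψ (z j0))
          rw [← NNReal.coe_lt_coe, h0]
          exact Real.one_lt_exp_iff.2 one_pos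
        · rw [← map_pow]
          refine he.eq_iff.1 (NNReal.eq ?_)
          change (v (ψ _) : ℝ) = v (ψ _)
          rw [hdv v h q hq, map_pow, map_pow, NNReal.coe_pow, h0, ← Real.exp_nat_mul, mul_one])
    rw [← map_pow] at hi
    have h2 : v (ψ φ) ≤ v (ψ (g i ^ a)) :=
      ((Valuation.isEquiv_valuation_valuationSubring (v.comap ψ)) φ (g i ^ a)).2 hi
    refine ⟨i, ?_⟩
    rw [map_mul, map_mul, mul_pow, map_pow v ρ, ← map_pow v (ψ _), ← map_pow ψ]
    exact mul_le_mul' le_rfl h2
  let T : Fin d × (ι → Fin (L * (a + 1) + 1)) → Om :=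
    fun q => (∏ j, s j ^ (q.2 j : ℕ)) * e q.1
  let Λ : E →ₗ[k] Om := (LinearMap.mulLeft k (ρ ^ a)).comp
    ((IsScalarTower.toAlgHom k F Om).toLinearMap.comp E.subtype)
  have hΛ : ∀ φ : E, Λ φ ∈ Submodule.span k (range T) := fun φ => by
    have h2 : Λ φ ∈ Submodule.span (kR k Om) (range T) := by
      refine he ((∑ i, c i) ^ a) (L * (a + 1)) ?_ _ (hM _ (mul_mem (pow_mem
        (M.algebraMap_mem ⟨ρ, prod_mem fun i _ => hRK _ (hr i)⟩) a) (hNM φ)))
        (fun v hv => ?_) fun v hv => ?_
      · rw [NNReal.coe_mul, NNReal.coe_pow, Nat.cast_mul, mul_comm (L : ℝ), Real.exp_nat_mul,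
          pow_succ]
        exact mul_le_mul (pow_le_pow_left₀ (NNReal.coe_nonneg _) hL1 a) hL2 (NNReal.coe_nonneg _)
          (by positivity)
      · obtain ⟨i, hi⟩ := key φ φ.2 v (fun a ha =>
          (closure_le_BdR (s := s) (Subring.subset_closure (Or.inl ha))).1 v hv) (Or.inl fun j =>
          (closure_le_BdR (s := s) (Subring.subset_closure (Or.inr ⟨j, rfl⟩))).1 v hv)
        exact hi.trans (pow_le_one' ((hρ i).1 v hv) a)
      · obtain ⟨i, hi⟩ := key φ φ.2 v (fun a ha => hv.const ha) (Or.inr hv)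
        exact hi.trans (pow_le_pow_left' ((hc i v hv).trans
          (Finset.single_le_sum (f := c) (fun _ _ => zero_le) (Finset.mem_univ i))) a)
    generalize Λ φ = w at h2
    induction h2 using Submodule.span_induction with
    | mem a ha => exact Submodule.subset_span ha
    | zero => exact zero_mem _
    | add a b _ _ ha hb => exact add_mem ha hb
    | smul a b _ hb =>
      obtain ⟨_, a, rfl⟩ := a
      have := Submodule.smul_mem _ a hb
      rwa [Algebra.smul_def] at this
  have hinj : Function.Injective (Λ.codRestrict _ hΛ) := fun a b h => Subtype.ext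
    (ψ.injective (mul_left_cancel₀ (pow_ne_zero _ (Finset.prod_ne_zero_iff.2 fun i _ => hr1 i))
      (congrArg Subtype.val h)))
  have : FiniteDimensional k (Submodule.span k (range T)) :=
    FiniteDimensional.span_of_finite k (finite_range T)
  refine ⟨FiniteDimensional.of_injective _ hinj,
    (LinearMap.finrank_le_finrank_of_injective hinj).trans ((finrank_range_le_card T).trans ?_)⟩
  rw [Fintype.card_prod, Fintype.card_fin, Fintype.card_fun, Fintype.card_fin, mul_assoc, ← mul_pow]
  exact Nat.mul_le_mul_left _ (Nat.pow_le_pow_left (by nlinarith) _)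

end Fm

variable {R M α K ν : Type} [CommRing R] [IsDomain R] [Algebra ℂ R] [Field M] [Algebra ℂ M]
  {O : Subalgebra ℂ M} [Field K] [Algebra R K] [IsFractionRing R K] [Algebra K M]
  {inc : R →ₐ[ℂ] O} {z : α → O} [Fintype ν] [DecidableEq ν]

namespace Noe

variable (N : Noe K inc ν z)
include N

omit [Fintype ν] [DecidableEq ν] in
/-- denominators of elements of `K O` can be taken in the base ring -/
theorem clear {f : M} (hf : f ∈ Algebra.adjoin K (O : Set M)) :
    ∃ r : R, r ≠ 0 ∧ ∃ g : O, (g : M) = inc r * f := by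
  induction hf using Algebra.adjoin_induction with
  | mem x hx => exact ⟨1, one_ne_zero, ⟨x, hx⟩, by simp⟩
  | algebraMap c =>
    obtain ⟨a, b, hb, rfl⟩ := IsFractionRing.div_surjective R c
    refine ⟨b, nonZeroDivisors.ne_zero hb, inc a, ?_⟩
    rw [N.inc_eq, N.inc_eq, ← map_mul, mul_div_cancel₀ _
      (IsFractionRing.to_map_ne_zero_of_mem_nonZeroDivisors hb)]
  | add x y _ _ hx hy =>
    obtain ⟨r, hr, g, hg⟩ := hx
    obtain ⟨r', hr', g', hg'⟩ := hy
    refine ⟨r * r', mul_ne_zero hr hr', inc r' * g + inc r * g', ?_⟩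
    push_cast [map_mul, hg, hg']
    ring
  | mul x y _ _ hx hy =>
    obtain ⟨r, hr, g, hg⟩ := hx
    obtain ⟨r', hr', g', hg'⟩ := hy
    refine ⟨r * r', mul_ne_zero hr hr', g * g', ?_⟩
    push_cast [map_mul, hg, hg']
    ring

omit [IsDomain R] [Fintype ν] [DecidableEq ν] in
theorem val_inc {V : ValuationSubring M} (hV : ∀ c : K, algebraMap K M c ∈ V) {r : R}
    (hr : r ≠ 0) : V.valuation (inc r : M) = 1 := by
  have h0 : algebraMap K M (algebraMap R K r) ≠ 0 := (map_ne_zero _).2
    ((map_ne_zero_iff _ (IsFractionRing.injective R K)).2 hr)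
  have h1 := (V.valuation_le_one_iff _).2 (hV (algebraMap R K r)⁻¹)
  rw [map_inv₀, map_inv₀, inv_le_one₀ ((Valuation.pos_iff _).2 h0)] at h1
  rw [N.inc_eq]
  exact le_antisymm ((V.valuation_le_one_iff _).2 (hV _)) h1

variable [Algebra ℂ K] [IsScalarTower ℂ K M]

omit [IsDomain R] [IsFractionRing R K] [Fintype ν] [DecidableEq ν] in
/-- a subalgebra over the base field that contains the generators contains the chart -/
theorem le_of_gen {S : Subring M} (hK : ∀ c : K, algebraMap K M c ∈ S) (hz : ∀ a, (z a : M) ∈ S)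
    (g : O) : (g : M) ∈ S := by
  have hg : g ∈ Algebra.adjoin ℂ (range inc ∪ range z) := by
    rw [N.gen]
    trivial
  induction hg using Algebra.adjoin_induction with
  | mem x hx =>
    rcases hx with ⟨r, rfl⟩ | ⟨a, rfl⟩
    · rw [N.inc_eq]
      exact hK _
    · exact hz a
  | algebraMap c =>
    change algebraMap ℂ M c ∈ S
    rw [IsScalarTower.algebraMap_apply ℂ K M]
    exact hK _
  | add x y _ _ hx hy => exact add_mem hx hy
  | mul x y _ _ hx hy => exact mul_mem hx hy

/-- a linear bound for the degree of the regular functions with bounded poles along a stable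
family of valuation rings gives isotriviality -/
theorem isotriv [Finite α] (j0 : ν) {t : Unit → K} (ht : IsTranscendenceBasis ℂ t)
    {v : Derivation ℂ M M} (hv : v (algebraMap K M (t ())) = 1)
    (hO : ∀ g : O, v g ∈ Algebra.adjoin K (O : Set M)) {G : Set (ValuationSubring M)}
    (hK : ∀ V ∈ G, ∀ c : K, algebraMap K M c ∈ V) (hG : ∀ V ∈ G, ∀ f ∈ V, v f ∈ V) (c : ℕ)
    (H : ∀ (a : ℕ) (f : O), (∀ V ∈ G, V.valuation (f : M) ≤ 1 ∨
      ∃ i, V.valuation (f : M) ≤ V.valuation (z i : M) ^ a) → N.Deg f (c * (a + 1))) :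
    Isotriv K M := by
  have : CharZero K := charZero_of_injective_algebraMap (algebraMap ℂ K).injective
  have hvK := Fm.der_base ht ⟨1, by rw [hv, map_one]⟩
  obtain ⟨x, hx0, hx1, hxO⟩ : ∃ x : Option α → M, x none = 1 ∧ (∀ a, x (some a) = z a) ∧
      ∀ i, x i ∈ O := ⟨fun i => i.elim 1 fun a => z a, rfl, fun _ => rfl, by
        rintro (_ | a)
        exacts [O.one_mem, (z a).2]⟩
  have hx : IntermediateField.adjoin K (range x) = ⊤ := by
    refine eq_top_iff.2 fun φ _ => ?_
    obtain ⟨a, b, hb, e⟩ := N.frac φ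
    have h : ∀ g : O, (g : M) ∈ IntermediateField.adjoin K (range x) :=
      N.le_of_gen (S := (IntermediateField.adjoin K (range x)).toSubalgebra.toSubring)
        (fun c => IntermediateField.algebraMap_mem _ c)
        fun a => IntermediateField.subset_adjoin _ _ ⟨some a, hx1 a⟩
    rw [eq_div_of_mul_eq (fun h => hb (Subtype.ext h)) e]
    exact div_mem (h a) (h b)
  have hfg : (⊤ : IntermediateField K M).FG := by
    rw [← hx]
    exact IntermediateField.fg_adjoin_of_finite (finite_range _)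
  obtain ⟨C, hC⟩ := Fm.countD N.basis hfg j0 fun i : Option Unit => i.elim 1 fun _ => (N.l j0 : M)
  have hA : ∀ f ∈ Algebra.adjoin K (O : Set M), v f ∈ Algebra.adjoin K (O : Set M) := by
    intro f hf
    induction hf using Algebra.adjoin_induction with
    | mem x hx => exact hO ⟨x, hx⟩
    | algebraMap c =>
      obtain ⟨c', e⟩ := hvK c
      rw [← e]
      exact Subalgebra.algebraMap_mem _ c'
    | add x y _ _ hx hy =>
      rw [map_add]
      exact add_mem hx hy
    | mul x y hx' hy' hx hy =>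
      rw [Derivation.leibniz]
      exact add_mem (mul_mem hx' hy) (mul_mem hy' hx)
  refine Fm.isotriv_of_growthA ht hv (Algebra.adjoin K (O : Set M)) hA
    (fun i => Algebra.subset_adjoin (hxO i)) hK hG ⟨none, hx0⟩ hx
    (C := C * (c + 1) ^ Fintype.card ν) (n := Fintype.card ν) fun a => ?_
  obtain ⟨h2, h3⟩ := hC (c * (a + 1)) ((Algebra.adjoin K (O : Set M)).toSubmodule ⊓
    Fm.Rs G hK x ⟨none, hx0⟩ a) fun f hf V hV hV' => by
      obtain ⟨r, hr, g, hg⟩ := N.clear hf.1
      have e : ∀ W : ValuationSubring M, (∀ c : K, algebraMap K M c ∈ W) →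
          W.valuation (g : M) = W.valuation f := fun W hW => by
        rw [hg, map_mul, N.val_inc hW hr, one_mul]
      rw [← e V hV]
      rcases hV' with h | h
      · refine ⟨none, ?_⟩
        have h1 := N.dom V (fun r => by
          rw [N.inc_eq]
          exact hV _) (by
          rw [N.inc_eq, ← map_inv₀]
          exact hV _) 1 le_rfl fun j => (V.valuation_le_one_iff _).2 (h j)
        have h2 : (g : M) ∈ V := N.le_of_gen (S := V.toSubring) hV
          (fun a => (V.valuation_le_one_iff _).1 (h1 a)) g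
        simpa using h2
      · refine ⟨some (), H a g (fun W hW => ?_) V h j0⟩
        rw [e W (hK W hW)]
        obtain ⟨_ | i, hi⟩ := hf.2 W hW
        · exact Or.inl (by simpa [hx0] using hi)
        · exact Or.inr ⟨i, hx1 i ▸ hi⟩
  refine ⟨_, h2, h3.trans ?_, fun _ hf hf' => ⟨hf, hf'⟩⟩
  rw [mul_assoc, ← mul_pow]
  exact Nat.mul_le_mul_left _ (Nat.pow_le_pow_left (by nlinarith) _)

end Noe

end Pool.Agent.Lib.MP_5c318e_ag
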