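import Pool.Agent.Lib.MP_5c318e_ag.Sx.SDefs
import Pool.Agent.Lib.MP_5c318e_ag.Fm.Pole
import Pool.Agent.Lib.MP_5c318e_ag.Np.Nrm

/-! If the logarithmic pole is never attained, the degree grows linearly: isotriviality. -/

set_option autoImplicit false
set_option linter.unusedSectionVars false

namespace Pool.Agent.Lib.MP_5c318e_ag

open Set

/-- regular forms satisfy all conditions -/
theorem Cnd.plu {K M ν I : Type} [Field K] [Field M] [Algebra K M] [Fintype ν] [DecidableEq ν]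
    {dx : ν → Derivation K M M} (c : Cnd dx I) {m : ℕ} {φ : M} (h : Plu dx m φ) (i : I) :
    φ / c.J i ^ m ∈ c.O i := by
  obtain ⟨f, hf, u, hu, rfl⟩ := h _ (c.div i)
  rw [mul_div_assoc, ← div_pow]
  exact mul_mem hu (pow_mem (c.adp i f hf) m)

namespace Noe.Uni

variable {R M α K ν : Type} [CommRing R] [Algebra ℂ R] [Field M] [Algebra ℂ M]
  {O : Subalgebra ℂ M} [Field K] [Algebra R K] [Algebra K M] {inc : R →ₐ[ℂ] O} {z : α → O}
  [DecidableEq ν] {N : Noe K inc ν z} {j0 : ν} (U : N.Uni j0)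

theorem eh_lt (V : N.DD) : V.1.valuation (U.π V) < 1 := by simpa using (U.adp V).lt

theorem eh_pos (V : N.DD) : 0 < V.1.valuation (U.π V) :=
  (Valuation.pos_iff _).2 (by simpa using (U.adp V).ne_zero j0)

theorem eh_mem (V : N.DD) {A B : M} (hA : A ≠ 0) (hB : B ≠ 0) (a b c : ℕ) :
    A ^ a * B ^ b * U.π V ^ c ∈ V.1 ↔ 0 ≤ U.od V A * a + U.od V B * b + c := by
  rw [← V.1.valuation_le_one_iff, map_mul, map_mul, map_pow, map_pow, map_pow, U.val V A hA,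
    U.val V B hB, ← zpow_natCast, ← zpow_natCast, ← zpow_natCast, ← zpow_mul, ← zpow_mul,
    ← zpow_add₀ (U.eh_pos V).ne', ← zpow_add₀ (U.eh_pos V).ne',
    zpow_le_one_iff_right_of_lt_one₀ (U.eh_pos V) (U.eh_lt V)]

theorem eh_od (V : N.DD) {A : M} (hA : A ≠ 0) (h : A ∈ V.1) : 0 ≤ U.od V A := by
  simpa using (U.eh_mem V hA hA 1 0 0).1 (by simpa using h)

end Noe.Uni

variable {ν K M : Type} [Fintype ν] [DecidableEq ν] [Field K] [Algebra ℂ K] [Field M] [Algebra ℂ M]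
  [Algebra K M] [IsScalarTower ℂ K M]

namespace Dat

theorem τ0_ne (d : Dat Unit K ν M) : (d.τ0 : M) ≠ 0 := d.ind.ne_zero _

theorem τ0_plu (d : Dat Unit K ν M) : Plu d.T.dx d.m (d.τ0 : M) :=
  (d.span _).2 (Submodule.subset_span ⟨_, rfl⟩)

namespace Geo.Pol

variable {d : Dat Unit K ν M} {G : d.Geo} (P : G.Pol)

/-- linear growth of the degree -/
theorem deg_of_exc (hE : P.Exc) : ∃ c : ℕ, ∀ (a0 : ℕ) (f : d.T.X.O),
    (∀ i, (∀ V, i = Sum.inl V → ¬ P.pol V) → (f : M) / P.c.l i ^ a0 ∈ P.c.O i) →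
      G.No.Deg f (c * (a0 + 1)) := by
  obtain ⟨J0, C, hJ, hE⟩ := hE
  have := G.No.finite_DD
  have hm : 0 < d.m := by have := d.hm; omega
  have hl := G.No.l_ne G.j0
  have hτ : ∀ i, (d.τ0 : M) / P.c.J i ^ d.m ≠ 0 := fun i =>
    div_ne_zero d.τ0_ne (pow_ne_zero _ (P.c.J0 i))
  have hs : ∀ V, ∃ s : ℕ, G.U.od V ((d.τ0 : M) / P.c.J (Sum.inl V) ^ d.m) = s := fun V =>
    Int.eq_ofNat_of_zero_le (G.U.eh_od V (hτ _) (P.cO V ▸ P.c.plu d.τ0_plu (Sum.inl V)))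
  choose s hs using hs
  obtain ⟨Am, hA⟩ := Finite.exists_le fun V => d.m + s V
  refine ⟨1 + C * J0 * Am, fun a0 f hf V' hV' j => ?_⟩
  by_cases f0 : (f : M) = 0
  · simp [f0]
  have hx0 : (f : M) / (G.No.l G.j0 : M) ^ a0 ≠ 0 := div_ne_zero f0 (pow_ne_zero _ hl)
  let x : G.No.DD → ℤ := fun V => G.U.od V ((f : M) / (G.No.l G.j0 : M) ^ a0)
  have hnp : ∀ V, ¬ P.pol V → 0 ≤ x V := fun V h => by
    have h1 := hf (Sum.inl V) fun W e => Sum.inl.inj e ▸ h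
    rw [P.cO, P.cl] at h1
    exact G.U.eh_od V hx0 h1
  have key : ∀ V, -((C * a0 * J0 * (d.m + s V) : ℕ) : ℤ) ≤ x V := fun V => by
    by_contra hc
    have : Nonempty G.No.DD := ⟨V⟩
    obtain ⟨V0, h0⟩ := Finite.exists_min fun W => (x W : ℚ) / ((d.m + s W : ℕ) : ℚ)
    have h1 : ∀ W, x V0 * (d.m + s W : ℕ) ≤ x W * (d.m + s V0 : ℕ) := fun W => by
      have := h0 W
      rw [div_le_div_iff₀ (by positivity) (by positivity)] at this
      exact_mod_cast this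
    have h2 : x V0 < -((C * (a0 * (J0 * (d.m + s V0))) : ℕ) : ℤ) := by
      refine lt_of_mul_lt_mul_right (a := ((d.m + s V : ℕ) : ℤ)) ((h1 V).trans_lt ?_)
        (by positivity)
      refine (mul_lt_mul_of_pos_right (not_le.1 hc) (by positivity)).trans_eq ?_
      push_cast
      ring
    obtain ⟨p, hp⟩ := Int.eq_ofNat_of_zero_le (a := -x V0) (by omega)
    have hp0 : P.pol V0 := not_not.1 fun h => by
      have := hnp V0 h
      omega
    have e : ∀ i j', ((f ^ (J0 * (d.m + s V0)) * d.τ0 ^ (J0 * p) : d.T.X.O) : M) * P.c.w i ^ j' /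
        (P.c.J i ^ (d.m * J0 * p) * P.c.l i ^ (a0 * (J0 * (d.m + s V0)))) =
        ((f : M) / P.c.l i ^ a0) ^ (J0 * (d.m + s V0)) *
          ((d.τ0 : M) / P.c.J i ^ d.m) ^ (J0 * p) * P.c.w i ^ j' := fun i j' => by
      rw [mul_assoc d.m, pow_mul (P.c.J i), pow_mul (P.c.l i), div_pow, div_pow]
      push_cast
      ring
    have h3 := hE p (a0 * (J0 * (d.m + s V0))) (by omega)
      (f ^ (J0 * (d.m + s V0)) * d.τ0 ^ (J0 * p)) (fun i => by
        rw [e]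
        by_cases hi : ∃ W, i = Sum.inl W ∧ P.pol W
        · obtain ⟨W, rfl, hW⟩ := hi
          rw [P.cw W hW, P.cO, P.cl, G.U.eh_mem W hx0 (hτ _), hs]
          have h4 := mul_le_mul_of_nonneg_left (h1 W) (Int.natCast_nonneg J0)
          rw [show x V0 = -p by omega] at h4
          change 0 ≤ x W * _ + _ + _
          push_cast at h4 ⊢
          linarith
        · exact mul_mem (mul_mem (pow_mem (hf i fun W h h' => hi ⟨W, h, h'⟩) _)
            (pow_mem (P.c.plu d.τ0_plu i) _)) (pow_mem (P.c.wO i) _)) (Sum.inl V0)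
    have hk : 1 ≤ d.m * J0 * p := Nat.mul_pos (Nat.mul_pos hm hJ) (by omega)
    rw [e, P.cw V0 hp0, P.cO, P.cl, G.U.eh_mem V0 hx0 (hτ _), hs, Nat.cast_sub hk] at h3
    change 0 ≤ x V0 * _ + _ + _ at h3
    rw [show x V0 = -p by omega] at h3
    push_cast at h3
    linarith
  have h1 := key ⟨V', hV'⟩
  have h2 := hA ⟨V', hV'⟩
  have h3 := G.U.pos ⟨V', hV'⟩
  have hp := G.U.eh_pos ⟨V', hV'⟩
  have e1 : V'.valuation (f : M) = V'.valuation ((f : M) / (G.No.l G.j0 : M) ^ a0) *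
      V'.valuation (G.No.l G.j0 : M) ^ a0 := by
    rw [← map_pow, ← map_mul, div_mul_cancel₀ _ (pow_ne_zero _ hl)]
  rw [e1, G.U.val ⟨V', hV'⟩ _ hx0, G.U.val ⟨V', hV'⟩ _ hl, G.U.val ⟨V', hV'⟩ _ (G.No.l_ne j),
    G.U.od_l, G.U.od_l, ← zpow_natCast _ (_ * _), ← zpow_natCast (_ ^ (-_ : ℤ)) a0, ← zpow_mul,
    ← zpow_mul, ← zpow_add₀ hp.ne',
    zpow_le_zpow_iff_right_of_lt_one₀ hp (G.U.eh_lt _)]
  change _ ≤ x ⟨V', hV'⟩ + _
  have h4 : C * a0 * J0 * (d.m + s ⟨V', hV'⟩) + G.U.e ⟨V', hV'⟩ * a0 ≤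
      G.U.e ⟨V', hV'⟩ * ((1 + C * J0 * Am) * (a0 + 1)) := by
    calc _ ≤ G.U.e ⟨V', hV'⟩ * (C * a0 * J0 * Am) + G.U.e ⟨V', hV'⟩ * a0 :=
          Nat.add_le_add_right ((Nat.mul_le_mul_left _ h2).trans (Nat.le_mul_of_pos_left _ h3)) _
      _ ≤ _ := by
          rw [← mul_add]
          exact Nat.mul_le_mul_left _ (by nlinarith [Nat.zero_le (C * J0 * Am)])
  zify at h4
  push_cast at h1 ⊢
  linarith

/-- the last arrow -/
theorem isotriv (hE : P.Exc) {v : Derivation ℂ M M} (hv : v (algebraMap K M (d.B.z ())) = 1)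
    (hO : ∀ g : d.T.X.O, v g ∈ Algebra.adjoin K (d.T.X.O : Set M))
    (hp : ∀ V, ¬ P.pol V → ∀ f ∈ V.1, v f ∈ V.1)
    (hr : ∀ i, ∀ f ∈ P.c.O (Sum.inr i), v f ∈ P.c.O (Sum.inr i)) : Isotriv K M := by
  obtain ⟨c, hc⟩ := P.deg_of_exc hE
  refine G.No.isotriv G.j0 d.B.basis hv hO
    (G := P.c.O '' {i | ∀ V, i = Sum.inl V → ¬ P.pol V}) ?_ ?_ c fun a f h => hc a f fun i hi => ?_
  · rintro _ ⟨i, -, rfl⟩
    exact (P.c.div i).const
  · rintro _ ⟨V | i, hi, rfl⟩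
    · rw [P.cO]
      exact hp V (hi V rfl)
    · exact hr i
  · rcases h _ ⟨i, hi, rfl⟩ with h | ⟨x, h⟩
    · rw [div_eq_mul_inv, ← inv_pow]
      exact mul_mem (((P.c.O i).valuation_le_one_iff _).1 h) (pow_mem (P.c.lO i) a)
    · have h1 := ((P.c.O i).valuation_le_one_iff _).2 (pow_mem (P.cz i x.1 x.2) a)
      have h2 := pow_pos ((Valuation.pos_iff (P.c.O i).valuation).2 (P.c.l0 i)) a
      rw [div_pow, map_div₀, map_pow, map_pow, div_le_one₀ h2] at h1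
      rw [← ValuationSubring.valuation_le_one_iff, map_div₀, map_pow, div_le_one₀ h2]
      exact h.trans h1

end Geo.Pol

end Dat

end Pool.Agent.Lib.MP_5c318e_ag
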