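import Mathlib

/-! The formal flow `exp (s v)` of a derivation `v` of a field of characteristic zero, as a ring
automorphism of the power series ring. -/

set_option autoImplicit false

namespace Pool.Agent.Lib.MP_5c318e_ag.Fm

open PowerSeries

section Co

variable {M : Type*} [CommRing M]

/-- power series with all coefficients in a subring -/
def Co (S : Subring M) : Subring M⟦X⟧ where
  carrier := {W | ∀ n, coeff n W ∈ S}
  mul_mem' := fun {a b} ha hb n => by
    rw [coeff_mul]
    exact sum_mem fun p _ => mul_mem (ha _) (hb _)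
  one_mem' := fun n => by
    rw [coeff_one]
    split_ifs
    exacts [one_mem _, zero_mem _]
  add_mem' := fun {a b} ha hb n => by
    rw [map_add]
    exact add_mem (ha n) (hb n)
  zero_mem' := fun n => by
    rw [map_zero]
    exact zero_mem _
  neg_mem' := fun {a} ha n => by
    rw [map_neg]
    exact neg_mem (ha n)

theorem mem_Co {S : Subring M} {W : M⟦X⟧} : W ∈ Co S ↔ ∀ n, coeff n W ∈ S := Iff.rfl

theorem C_mem_Co {S : Subring M} {a : M} (ha : a ∈ S) : C a ∈ Co S := fun n => by
  rw [coeff_C]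
  split_ifs
  exacts [ha, zero_mem _]

theorem X_mem_Co (S : Subring M) : X ∈ Co S := fun n => by
  rw [coeff_X]
  split_ifs
  exacts [one_mem _, zero_mem _]

theorem Co_mono {S T : Subring M} (h : S ≤ T) : Co S ≤ Co T := fun _ hW n => h (hW n)

theorem der_mem_Co {S : Subring M} {W : M⟦X⟧} (hW : W ∈ Co S) : d⁄dX M W ∈ Co S := fun n => by
  rw [coeff_derivative]
  exact mul_mem (hW _) (add_mem (natCast_mem S n) (one_mem S))

end Co

variable {R M : Type*} [CommRing R] [Field M] [Algebra R M] (v : Derivation R M M)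

/-- the derivation applied to all coefficients -/
noncomputable def cw (W : M⟦X⟧) : M⟦X⟧ := mk fun n => v (coeff n W)

@[simp] theorem coeff_cw (W : M⟦X⟧) (n : ℕ) : coeff n (cw v W) = v (coeff n W) := coeff_mk _ _

theorem cw_mul (W W' : M⟦X⟧) : cw v (W * W') = cw v W * W' + W * cw v W' := by
  ext n
  simp only [coeff_cw, map_add, coeff_mul, map_sum, Derivation.leibniz, smul_eq_mul,
    ← Finset.sum_add_distrib]
  exact Finset.sum_congr rfl fun p _ => by ring

theorem cw_neg (W : M⟦X⟧) : cw (-v) W = -cw v W := by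
  ext n
  simp

theorem der_cw (W : M⟦X⟧) : d⁄dX M (cw v W) = cw v (d⁄dX M W) := by
  ext n
  simp [coeff_derivative, mul_comm]

/-- coefficients of the flow -/
noncomputable def thc : ℕ → M⟦X⟧ → M
  | 0, W => coeff 0 W
  | n + 1, W => (v (thc n W) + thc n (d⁄dX M W)) / (n + 1)

theorem thc_zero (W : M⟦X⟧) : thc v 0 W = coeff 0 W := rfl

theorem thc_succ (n : ℕ) (W : M⟦X⟧) :
    thc v (n + 1) W = (v (thc v n W) + thc v n (d⁄dX M W)) / (n + 1) := rfl

theorem thc_add (n : ℕ) : ∀ W W' : M⟦X⟧, thc v n (W + W') = thc v n W + thc v n W' := by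
  induction n with
  | zero => intro W W'; simp [thc_zero]
  | succ n ih =>
    intro W W'
    simp only [thc_succ, map_add, ih]
    ring

theorem thc_of_zero (n : ℕ) : thc v n 0 = 0 := by
  simpa using thc_add v n 0 0

theorem thc_neg (n : ℕ) (W : M⟦X⟧) : thc v n (-W) = -thc v n W := by
  rw [eq_neg_iff_add_eq_zero, ← thc_add, neg_add_cancel, thc_of_zero]

theorem thc_C {c : M} (hc : v c = 0) (n : ℕ) : thc v n (C c) = coeff n (C c) := by
  induction n with
  | zero => rfl
  | succ n ih =>
    have : v (coeff n (C c)) = 0 := by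
      rw [coeff_C]
      split_ifs
      exacts [hc, map_zero v]
    rw [thc_succ, ih, this, derivative_C, thc_of_zero, coeff_succ_C, add_zero, zero_div]

theorem thc_cw (n : ℕ) : ∀ W : M⟦X⟧, thc v n (cw v W) = v (thc v n W) := by
  induction n with
  | zero => intro W; simp [thc_zero]
  | succ n ih =>
    intro W
    have h : v ((n : M) + 1) = 0 := by simp
    rw [thc_succ, thc_succ, der_cw, ih, ih, v.leibniz_div_const _ _ h, map_add, smul_eq_mul,
      div_eq_inv_mul]

variable [CharZero M]

theorem thc_mem {S : Subring M} (hv : ∀ a ∈ S, v a ∈ S) (hq : ∀ n : ℕ, (n : M)⁻¹ ∈ S) (n : ℕ) :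
    ∀ W ∈ Co S, thc v n W ∈ S := by
  induction n with
  | zero => exact fun W hW => hW 0
  | succ n ih =>
    intro W hW
    rw [thc_succ, div_eq_mul_inv]
    exact mul_mem (add_mem (hv _ (ih W hW)) (ih _ (der_mem_Co hW))) (by exact_mod_cast hq (n + 1))

theorem coeff_succ_eq (W : M⟦X⟧) (n : ℕ) : coeff (n + 1) W = coeff n (d⁄dX M W) / (n + 1) := by
  rw [coeff_derivative, mul_div_cancel_right₀ _ (Nat.cast_add_one_ne_zero n)]

theorem der_thc (W : M⟦X⟧) : d⁄dX M (mk fun n => thc v n W) =
    cw v (mk fun n => thc v n W) + mk fun n => thc v n (d⁄dX M W) := by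
  ext n
  rw [coeff_derivative, map_add, coeff_cw, coeff_mk, coeff_mk, coeff_mk, thc_succ,
    div_mul_cancel₀ _ (Nat.cast_add_one_ne_zero n)]

theorem thc_mul (n : ℕ) : ∀ W W' : M⟦X⟧, thc v n (W * W') =
    coeff n ((mk fun k => thc v k W) * mk fun k => thc v k W') := by
  induction n with
  | zero => intro W W'; simp [thc_zero]
  | succ n ih =>
    intro W W'
    rw [thc_succ, coeff_succ_eq, Derivation.leibniz, Derivation.leibniz, smul_eq_mul, smul_eq_mul,
      smul_eq_mul, smul_eq_mul, thc_add, ih, ih, ih, der_thc, der_thc, ← coeff_cw, cw_mul,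
      ← map_add, ← map_add]
    congr 2
    ring

/-- the formal flow `exp (s v)` on power series in `s` -/
noncomputable def Th : M⟦X⟧ →+* M⟦X⟧ where
  toFun W := mk fun n => thc v n W
  map_one' := by
    ext n
    rw [coeff_mk, ← map_one C, thc_C v v.map_one_eq_zero]
  map_mul' W W' := by
    ext n
    rw [coeff_mk, thc_mul]
  map_zero' := by
    ext n
    rw [coeff_mk, thc_of_zero, map_zero]
  map_add' W W' := by
    ext n
    simp [thc_add]

theorem coeff_Th (W : M⟦X⟧) (n : ℕ) : coeff n (Th v W) = thc v n W :=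
  coeff_mk n fun k => thc v k W

theorem coeff_zero_Th (W : M⟦X⟧) : coeff 0 (Th v W) = coeff 0 W := coeff_Th v W 0

theorem der_Th (W : M⟦X⟧) : d⁄dX M (Th v W) = cw v (Th v W) + Th v (d⁄dX M W) := der_thc v W

theorem Th_cw (W : M⟦X⟧) : Th v (cw v W) = cw v (Th v W) := by
  ext n
  rw [coeff_Th, coeff_cw, coeff_Th, thc_cw]

theorem Th_C {c : M} (hc : v c = 0) : Th v (C c) = C c := by
  ext n
  rw [coeff_Th, thc_C v hc]

theorem Th_Th_neg (W : M⟦X⟧) : Th v (Th (-v) W) = W := by
  ext n
  induction n generalizing W with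
  | zero => rw [coeff_zero_Th, coeff_zero_Th]
  | succ n ih =>
    rw [coeff_succ_eq, coeff_succ_eq W, der_Th, der_Th, cw_neg, map_add (Th v), map_neg, Th_cw,
      add_neg_cancel_left, ih]

theorem Th_neg_Th (W : M⟦X⟧) : Th (-v) (Th v W) = W := by
  have := Th_Th_neg (-v) W
  rwa [neg_neg] at this

theorem Th_injective : Function.Injective (Th v) := Function.LeftInverse.injective (Th_neg_Th v)

theorem Th_mem {S : Subring M} (hv : ∀ a ∈ S, v a ∈ S) (hq : ∀ n : ℕ, (n : M)⁻¹ ∈ S)
    {W : M⟦X⟧} (hW : W ∈ Co S) : Th v W ∈ Co S := fun n => by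
  rw [coeff_Th]
  exact thc_mem v hv hq n W hW

theorem Th_X : Th v X = X := by
  ext n
  rcases n with _ | n
  · rw [coeff_zero_Th]
  · rw [coeff_succ_eq, coeff_succ_eq X, der_Th, ← Th_cw, derivative_X, map_one]
    have : cw v X = 0 := by
      ext k
      rw [coeff_cw, coeff_X]
      split_ifs <;> simp
    rw [this, map_zero, zero_add]

/-- the flow of a time function -/
theorem Th_time {t : M} (ht : v t = 1) : Th v (C t) = C t + X := by
  refine derivative.ext ?_ (by simpa using coeff_zero_Th v (C t))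
  have : cw v (C t) = 1 := by
    ext k
    rw [coeff_cw, coeff_C, coeff_one]
    split_ifs
    exacts [ht, map_zero v]
  rw [der_Th, ← Th_cw, this]
  simp

end Pool.Agent.Lib.MP_5c318e_ag.Fm
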