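import Pool.Agent.Lib.MP_5c318e_ag.Fm.Exp
import Pool.Agent.Lib.MP_5c318e_ag.Fo.Spec

/-! The formal flow of a derivation that is regular at enough valuation rings is birational. -/

set_option autoImplicit false

namespace Pool.Agent.Lib.MP_5c318e_ag.Fm

open PowerSeries Set Module Fo

section Rank

variable {K M : Type*} [Field K] [Field M] [Algebra K M]

variable (K M) in
/-- series with coefficients in the base field -/
abbrev KS : Subring M⟦X⟧ := Co (algebraMap K M).range

theorem map_mem_KS (g : K⟦X⟧) : map (algebraMap K M) g ∈ KS K M :=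
  fun _ => ⟨_, (coeff_map _ _ _).symm⟩

/-- independent constants stay independent over the series of the base -/
theorem li_C {κ : Type*} [Fintype κ] {f : κ → M} (hf : LinearIndependent K f) {g : κ → M⟦X⟧}
    (hg : ∀ i, g i ∈ KS K M) (h : ∑ i, g i * C (f i) = 0) (i : κ) : g i = 0 := by
  ext n
  choose c hc using fun i => hg i n
  have h1 := congrArg (coeff n) h
  simp only [map_sum, coeff_mul_C, map_zero, ← hc] at h1
  rw [← hc, Fintype.linearIndependent_iff.1 hf c (by simpa only [Algebra.smul_def] using h1) i,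
    map_zero, map_zero]

/-- rank bound for a saturated module of series -/
theorem exists_rel {N : Set M⟦X⟧} {V : Submodule K M} [FiniteDimensional K V]
    (hsat : ∀ W, X * W ∈ N → W ∈ N) (h0 : ∀ W ∈ N, coeff 0 W ∈ V) {κ : Type*} [Fintype κ]
    (hc : finrank K V < Fintype.card κ) (w : κ → M⟦X⟧)
    (hN : ∀ g : κ → M⟦X⟧, (∀ i, g i ∈ KS K M) → ∑ i, g i * w i ∈ N) :
    ∃ g : κ → M⟦X⟧, (∀ i, g i ∈ KS K M) ∧ (∃ i, g i ≠ 0) ∧ ∑ i, g i * w i = 0 := by
  obtain ⟨l, hl⟩ := LinearMap.exists_extend (Module.finBasis K V).equivFun.toLinearMap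
  have hl0 : ∀ f ∈ V, l f = 0 → f = 0 := fun f hf h => by
    have h1 : (Module.finBasis K V).equivFun ⟨f, hf⟩ = 0 :=
      (LinearMap.congr_fun hl ⟨f, hf⟩).symm.trans h
    exact congrArg Subtype.val ((map_eq_zero_iff _ (LinearEquiv.injective _)).1 h1)
  have hinj : ∀ n, ∀ W ∈ N, (∀ m, l (coeff m W) = 0) → coeff n W = 0 := by
    intro n
    induction n with
    | zero => exact fun W hW h => hl0 _ (h0 W hW) (h 0)
    | succ n ih =>
      intro W hW h
      obtain ⟨W', rfl⟩ := X_dvd_iff.2 (by simpa using hl0 _ (h0 W hW) (h 0) : constantCoeff W = 0)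
      rw [coeff_succ_X_mul]
      exact ih W' (hsat _ hW) fun m => by simpa only [coeff_succ_X_mul] using h (m + 1)
  have hdep : ¬ LinearIndependent K⟦X⟧
      fun i (k : Fin (finrank K V)) => (mk fun n => l (coeff n (w i)) k : K⟦X⟧) := fun h => by
    have := h.fintype_card_le_finrank
    rw [finrank_fin_fun] at this
    exact this.not_gt hc
  obtain ⟨g, hg, i, hi⟩ := Fintype.not_linearIndependent_iff.1 hdep
  refine ⟨fun i => map (algebraMap K M) (g i), fun i => map_mem_KS _, ⟨i, fun h => hi ?_⟩, ?_⟩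
  · exact map_injective _ (algebraMap K M).injective (h.trans (map_zero _).symm)
  · ext n
    refine hinj n _ (hN _ fun i => map_mem_KS _) fun m => funext fun k => ?_
    have h1 := congrArg (coeff m) (congrFun hg k)
    simp only [Finset.sum_apply, Pi.smul_apply, smul_eq_mul, map_sum, coeff_mul, coeff_mk,
      Pi.zero_apply, map_zero] at h1
    simpa only [map_sum, coeff_mul, coeff_map, ← Algebra.smul_def, map_smul, Finset.sum_apply,
      Pi.smul_apply, smul_eq_mul, Pi.zero_apply] using h1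

variable {R : Type*} [CommRing R] [Algebra R M] [CharZero M]

variable (K) in
/-- The growth hypothesis. `A` is a ring and `G` a family of valuation rings over `K`, all stable
under `v`; the finite family `x` of elements of `A` contains `1` and generates `M`; the elements
of `A` with poles bounded by the `a`-th and by the next power of `x` along `G` fill spaces of
comparable dimension. -/
structure Gro (v : Derivation R M M) (A : Subring M) (G : Set (ValuationSubring M)) {ι : Type*}
    (x : ι → M) (a : ℕ) (V0 V1 : Submodule K M) : Prop where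
  baseA : ∀ c : K, algebraMap K M c ∈ A
  stabA : ∀ f ∈ A, v f ∈ A
  memA : ∀ i, x i ∈ A
  lowA : ∀ f ∈ V0, f ∈ A
  base : ∀ O ∈ G, ∀ c : K, algebraMap K M c ∈ O
  stab : ∀ O ∈ G, ∀ f ∈ O, v f ∈ O
  one : ∃ i, x i = 1
  gen : IntermediateField.adjoin K (range x) = ⊤
  fd : FiniteDimensional K V1
  low : ∀ f ∈ V0, ∀ O ∈ G, ∃ i, O.valuation f ≤ O.valuation (x i) ^ a
  upp : ∀ f ∈ A, (∀ O ∈ G, ∃ i, O.valuation f ≤ O.valuation (x i) ^ (a + 1)) → f ∈ V1
  dim : finrank K V1 < 2 * finrank K V0

variable {v : Derivation R M M} {A : Subring M} {G : Set (ValuationSubring M)} {ι : Type*}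
  {x : ι → M} {a : ℕ} {V0 V1 : Submodule K M}

omit [CharZero M] in
theorem Gro.smul (H : Gro K v A G x a V0 V1) (c : K) :
    Gro K (algebraMap K M c • v) A G x a V0 V1 :=
  { H with
    stabA := fun f hf => mul_mem (H.baseA c) (H.stabA f hf)
    stab := fun O hO f hf => mul_mem (H.base O hO c) (H.stab O hO f hf) }

omit [CharZero M] in
theorem Gro.neg (H : Gro K v A G x a V0 V1) : Gro K (-v) A G x a V0 V1 :=
  { H with
    stabA := fun f hf => neg_mem (H.stabA f hf)
    stab := fun O hO f hf => neg_mem (H.stab O hO f hf) }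

omit [CharZero M] in
theorem inv_nat_mem (n : ℕ) : (n : M)⁻¹ ∈ (algebraMap K M).range := ⟨(n : K)⁻¹, by simp⟩

/-- the flow of a generator is a quotient of two elements of the ring `M K[[s]]` -/
theorem Gro.rel [Finite ι] (H : Gro K v A G x a V0 V1) (j : ι) :
    ∃ P ∈ Subring.closure (range (C : M → M⟦X⟧) ∪ KS K M),
      ∃ B ∈ Subring.closure (range (C : M → M⟦X⟧) ∪ KS K M), B ≠ 0 ∧ Th v (C (x j)) * B = P := by
  have := H.fd
  have : Nonempty ι := ⟨j⟩
  have : FiniteDimensional K V0 := by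
    by_contra h
    have := H.dim
    rw [finrank_of_not_finite h] at this
    omega
  choose d hd using fun O : ValuationSubring M => Finite.exists_max fun i => O.valuation (x i)
  have hd1 : ∀ O : ValuationSubring M, 1 ≤ O.valuation (x (d O)) := fun O => by
    obtain ⟨i, hi⟩ := H.one
    simpa [hi] using hd O i
  have hd0 : ∀ O : ValuationSubring M, x (d O) ≠ 0 := fun O h => by simpa [h] using hd1 O
  have hp : ∀ O : ValuationSubring M, 0 < O.valuation (x (d O)) :=
    fun O => zero_lt_one.trans_le (hd1 O)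
  have hKO : ∀ O ∈ G, (algebraMap K M).range ≤ O.toSubring := by
    rintro O hO _ ⟨c, rfl⟩
    exact H.base O hO c
  let b := Module.finBasis K V0
  have hb : LinearIndependent K fun i => (b i : M) :=
    b.linearIndependent.map' V0.subtype V0.ker_subtype
  let T : ValuationSubring M → M⟦X⟧ := fun O => C (x (d O) ^ a)⁻¹ * Th v (C (x (d O))⁻¹)
  have key : ∀ O ∈ G, ∀ i y, O.valuation y ≤ O.valuation (x (d O)) →
      C (b i : M) * Th v (C y) * T O ∈ Co O.toSubring := fun O hO i y hy => by
    have e : C (b i : M) * Th v (C y) * T O =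
        C ((b i : M) / x (d O) ^ a) * Th v (C (y / x (d O))) := by
      simp only [T, div_eq_mul_inv, map_mul]
      ring
    rw [e]
    refine mul_mem (C_mem_Co ?_) (Th_mem v (H.stab O hO) (fun n => hKO O hO (inv_nat_mem n))
      (C_mem_Co ?_))
    · obtain ⟨k, hk⟩ := H.low _ (b i).2 O hO
      refine (O.valuation_le_one_iff _).1 ?_
      rw [map_div₀, map_pow, div_le_one₀ (pow_pos (hp O) a)]
      exact hk.trans (pow_le_pow_left' (hd O k) a)
    · refine (O.valuation_le_one_iff _).1 ?_
      rwa [map_div₀, div_le_one₀ (hp O)]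
  have hKA : (algebraMap K M).range ≤ A := by
    rintro _ ⟨c, rfl⟩
    exact H.baseA c
  have keyA : ∀ i, ∀ y ∈ A, C (b i : M) * Th v (C y) ∈ Co A := fun i y hy =>
    mul_mem (C_mem_Co (H.lowA _ (b i).2))
      (Th_mem v H.stabA (fun n => hKA (inv_nat_mem n)) (C_mem_Co hy))
  obtain ⟨g, hg, hne, h0⟩ := exists_rel
    (N := {W | W ∈ Co A ∧ ∀ O ∈ G, W * T O ∈ Co O.toSubring}) (V := V1)
    (fun W hW => ⟨fun n => by simpa only [coeff_succ_X_mul] using hW.1 (n + 1), fun O hO n => by
      simpa only [mul_assoc, coeff_succ_X_mul] using hW.2 O hO (n + 1)⟩)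
    (fun W hW => H.upp _ (hW.1 0) fun O hO => ⟨d O, by
      have h1 := (O.valuation_le_one_iff _).2 (hW.2 O hO 0)
      have h2 : coeff 0 (W * T O) = coeff 0 W / x (d O) ^ (a + 1) := by
        have := coeff_zero_Th v (C (x (d O))⁻¹)
        simp only [coeff_zero_eq_constantCoeff, constantCoeff_C] at this
        simp only [T, coeff_zero_eq_constantCoeff, map_mul, constantCoeff_C, this, pow_succ,
          div_eq_mul_inv, mul_inv]
      rwa [h2, map_div₀, map_pow, div_le_one₀ (pow_pos (hp O) _)] at h1⟩)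
    (κ := Fin (finrank K V0) ⊕ Fin (finrank K V0)) (by simpa [two_mul] using H.dim)
    (Sum.elim (fun i => C (b i : M) * Th v (C 1)) fun i => C (b i : M) * Th v (C (x j)))
    (fun g hg => ⟨sum_mem fun i _ => mul_mem (Co_mono hKA (hg i)) (by
      rcases i with i | i
      exacts [keyA i 1 A.one_mem, keyA i _ (H.memA j)]), fun O hO => by
      rw [Finset.sum_mul]
      refine sum_mem fun i _ => ?_
      rw [mul_assoc]
      refine mul_mem (Co_mono (hKO O hO) (hg i)) ?_
      rcases i with i | i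
      exacts [key O hO i 1 (by simpa using hd1 O), key O hO i _ (hd O j)]⟩)
  have hm : ∀ e : Fin (finrank K V0) → M⟦X⟧, (∀ i, e i ∈ KS K M) →
      ∑ i, e i * C (b i : M) ∈ Subring.closure (range (C : M → M⟦X⟧) ∪ KS K M) := fun e he =>
    sum_mem fun i _ => mul_mem (Subring.subset_closure (Or.inr (he i)))
      (Subring.subset_closure (Or.inl ⟨_, rfl⟩))
  simp only [Fintype.sum_sum_type, Sum.elim_inl, Sum.elim_inr, map_one, mul_one, ← mul_assoc,
    ← Finset.sum_mul] at h0
  refine ⟨_, neg_mem (hm _ fun i => hg (.inl i)), _, hm _ fun i => hg (.inr i), fun hB => ?_, ?_⟩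
  · rw [hB, zero_mul, add_zero] at h0
    obtain ⟨i | i, hi⟩ := hne
    exacts [hi (li_C hb (fun i => hg (.inl i)) h0 i), hi (li_C hb (fun i => hg (.inr i)) hB i)]
  · rw [mul_comm]
    exact eq_neg_of_add_eq_zero_right h0

end Rank

section Fld

variable {K M Om : Type} [Field K] [Field M] [Field Om] [Algebra K M] (j : M⟦X⟧ →+* Om)

variable (K) in
/-- the field of fractions of the series over the base field -/
abbrev KF : Subfield Om := Subfield.closure (j '' KS K M)

theorem mem_KF {W : M⟦X⟧} (h : W ∈ KS K M) : j W ∈ KF K j := Subfield.subset_closure ⟨W, h, rfl⟩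

theorem mem_adj_of_gen {ι : Type*} {x : ι → M} (hx : IntermediateField.adjoin K (range x) = ⊤)
    {φ : M →+* M⟦X⟧} (hφ : ∀ c : K, φ (algebraMap K M c) ∈ KS K M) (m : M) :
    j (φ m) ∈ adj (KF K j) (range fun i => j (φ (x i))) := by
  have h : m ∈ (IntermediateField.adjoin K (range x)).toSubfield := by
    rw [hx]
    trivial
  rw [IntermediateField.adjoin_toSubfield] at h
  refine (Subfield.closure_le (t := (adj (KF K j) (range fun i => j (φ (x i)))).comap
    (j.comp φ))).2 ?_ h
  rintro _ (⟨c, rfl⟩ | ⟨i, rfl⟩)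
  · exact le_adj _ _ (mem_KF j (hφ c))
  · exact mem_adj _ ⟨i, rfl⟩

theorem mem_adj_of_ring {ι : Type*} {x : ι → M} (hx : IntermediateField.adjoin K (range x) = ⊤)
    {φ : M →+* M⟦X⟧} (hφ : ∀ c : K, φ (algebraMap K M c) ∈ KS K M) {θ : M⟦X⟧ →+* M⟦X⟧}
    (h1 : ∀ m, θ (C m) = φ m) (h2 : ∀ W ∈ KS K M, θ W ∈ KS K M) {A : M⟦X⟧}
    (hA : A ∈ Subring.closure (range (C : M → M⟦X⟧) ∪ KS K M)) :
    j (θ A) ∈ adj (KF K j) (range fun i => j (φ (x i))) := by
  refine (Subring.closure_le (t := (adj (KF K j)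
    (range fun i => j (φ (x i)))).toSubring.comap (j.comp θ))).2 ?_ hA
  rintro _ (⟨m, rfl⟩ | h)
  · change j (θ (C m)) ∈ adj (KF K j) _
    rw [h1]
    exact mem_adj_of_gen j hx hφ m
  · exact le_adj _ _ (mem_KF j (h2 _ h))

/-- independence over the fraction field of the series of the base -/
theorem li_KF (hj : Function.Injective j) {θ θ' : M⟦X⟧ →+* M⟦X⟧} (h1 : ∀ W, θ' (θ W) = W)
    (h2 : Function.Injective θ') (h3 : ∀ W ∈ KS K M, θ' W ∈ KS K M) {κ : Type*} {f : κ → M}
    (hf : LinearIndependent K f) : LinearIndependent (KF K j) fun i => j (θ (C (f i))) := by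
  classical
  rw [linearIndependent_iff_finset_linearIndependent] at hf ⊢
  intro s
  refine (li_iff_sum _ _).2 fun k hk h0 i => ?_
  have hq : ∀ i, ∃ a ∈ KS K M, ∃ b ∈ KS K M, j b ≠ 0 ∧ k i = j a / j b := fun i => by
    obtain ⟨u, hu, w, hw, h0, e⟩ := exists_quot_ring (hk i)
    rw [← RingHom.map_closure, Subring.closure_eq] at hu hw
    obtain ⟨a, ha, rfl⟩ := hu
    obtain ⟨b, hb, rfl⟩ := hw
    exact ⟨a, ha, b, hb, h0, e⟩
  choose a ha b hb hb0 e using hq
  have e2 : ∀ i, j (a i * ∏ l ∈ Finset.univ.erase i, b l) = k i * ∏ l, j (b l) := fun i => by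
    rw [e i, ← Finset.mul_prod_erase _ _ (Finset.mem_univ i), map_mul, map_prod, ← mul_assoc,
      div_mul_cancel₀ _ (hb0 i)]
  have h4 : ∑ i, (a i * ∏ l ∈ Finset.univ.erase i, b l) * θ (C (f i)) = 0 := hj (by
    have := congrArg (· * ∏ l, j (b l)) h0
    simp only [Finset.sum_mul, zero_mul, Function.comp] at this
    rw [map_zero, map_sum, ← this]
    exact Finset.sum_congr rfl fun i _ => by rw [map_mul, e2, mul_right_comm])
  have h5 := congrArg θ' h4
  rw [map_sum, map_zero] at h5
  simp only [map_mul θ' _ (θ _), h1] at h5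
  have h6 := li_C (hf s) (fun i => h3 _ (mul_mem (ha i) (prod_mem fun l _ => hb l))) h5 i
  have h7 := e2 i
  rw [h2 (h6.trans (map_zero _).symm), map_zero] at h7
  exact (mul_eq_zero.1 h7.symm).resolve_right (Finset.prod_ne_zero_iff.2 fun l _ => hb0 l)

/-- `M` and its flow are free from the series of the base -/
theorem free_KF (hj : Function.Injective j) {θ θ' : M⟦X⟧ →+* M⟦X⟧} (h1 : ∀ W, θ' (θ W) = W)
    (h2 : Function.Injective θ') (h3 : ∀ W ∈ KS K M, θ' W ∈ KS K M) {ι : Type*} [Finite ι]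
    (x : ι → M) : Free (acl ((algebraMap K M).fieldRange.map (j.comp (θ.comp C))))
      (range fun i => j (θ (C (x i)))) (acl (KF K j)) := by
  obtain ⟨n, u, k1, k2, k3⟩ := exists_basis (algebraMap K M).fieldRange (finite_range x)
  refine Free.acl_right ⟨n, fun i => j (θ (C (u i))), fun i => ?_, ?_, ?_⟩
  · obtain ⟨l, hl⟩ := k1 i
    exact ⟨l, by simp only [hl]⟩
  · have := li_KF j hj h1 h2 h3 ((li_subfield_iff (k := K) (K0 := (algebraMap K M).fieldRange)
      (fun _ => RingHom.mem_fieldRange) _).1 (ind_iff_li.1 k2))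
    rw [ind_iff_li]
    simpa only [Finsupp.prod, map_prod, map_pow] using this
  · rintro _ ⟨l, rfl⟩
    have := (mem_acl_map (j.comp (θ.comp C))).2 (k3 _ ⟨l, rfl⟩)
    rw [adj_map, ← range_comp] at this
    exact acl_mono (adj_mono (le_acl _) subset_rfl) this

variable {R : Type*} [CommRing R] [Algebra R M] [CharZero M] {v : Derivation R M M}
  {A : Subring M} {G : Set (ValuationSubring M)} {ι : Type*} [Finite ι] {x : ι → M} {a : ℕ}
  {V0 V1 : Submodule K M}

theorem Th_KS (hv : ∀ c : K, v (algebraMap K M c) ∈ (algebraMap K M).range) {W : M⟦X⟧}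
    (hW : W ∈ KS K M) : Th v W ∈ KS K M :=
  Th_mem v (by rintro _ ⟨c, rfl⟩; exact hv c) inv_nat_mem hW

/-- FORMAL: `M K((s)) = exp(s v)(M) K((s))` -/
theorem Gro.formal (H : Gro K v A G x a V0 V1) (hj : Function.Injective j)
    (hv : ∀ c : K, v (algebraMap K M c) ∈ (algebraMap K M).range) :
    adj (KF K j) (range fun i => j (C (x i))) =
      adj (KF K j) (range fun i => j (Th v (C (x i)))) := by
  refine le_antisymm (adj_le (le_adj _ _) ?_) (adj_le (le_adj _ _) ?_)
  · rintro _ ⟨i, rfl⟩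
    obtain ⟨P, hA, B, hB, h0, e⟩ := H.neg.rel i
    have e' := congrArg (fun W => j (Th v W)) e
    simp only [map_mul, Th_Th_neg] at e'
    have h1 : j (Th v B) ≠ 0 := fun h => h0 (Th_injective v (hj (by rw [h, map_zero, map_zero])))
    have key := fun W hW => mem_adj_of_ring j H.gen (φ := (Th v).comp C)
      (fun c => Th_KS hv (C_mem_Co ⟨c, rfl⟩)) (θ := Th v) (fun _ => rfl) (fun _ => Th_KS hv)
      (A := W) hW
    change j (C (x i)) ∈ _
    rw [eq_div_of_mul_eq h1 e']
    exact div_mem (key P hA) (key B hB)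
  · rintro _ ⟨i, rfl⟩
    obtain ⟨P, hA, B, hB, h0, e⟩ := H.rel i
    have e' := congrArg j e
    rw [map_mul] at e'
    have h1 : j B ≠ 0 := fun h => h0 (hj (by rw [h, map_zero]))
    have key := fun W hW => mem_adj_of_ring j H.gen (φ := C) (fun c => C_mem_Co ⟨c, rfl⟩)
      (θ := RingHom.id _) (fun _ => rfl) (fun _ h => h) (A := W) hW
    change j (Th v (C (x i))) ∈ _
    rw [eq_div_of_mul_eq h1 e']
    exact div_mem (key P hA) (key B hB)

end Fld

end Pool.Agent.Lib.MP_5c318e_ag.Fm
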