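import Pool.Agent.Lib.MP_5c318e_ag.Fm.Formal
import Pool.Agent.Lib.MP_5c318e_ag.Va.IDefs
import Pool.Agent.Lib.MP_5c318e_ag.Gr.Count

/-! A family over a curve with a transversal derivation of polynomial growth is isotrivial. -/

set_option autoImplicit false

namespace Pool.Agent.Lib.MP_5c318e_ag.Fm

open PowerSeries Set Module Fo

/-- fields of definition do not depend on the ambient closed field -/
theorem DO_transfer {M O1 O2 : Type} [Field M] [Field O1] [Field O2] [IsAlgClosed O1]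
    [IsAlgClosed O2] (ψ1 : M →+* O1) (ψ2 : M →+* O2) {A B : Subfield M}
    (h : DO (A.map ψ1) (acl (B.map ψ1)) (ψ1.fieldRange ⊔ acl (B.map ψ1))) :
    DO (A.map ψ2) (acl (B.map ψ2)) (ψ2.fieldRange ⊔ acl (B.map ψ2)) := by
  let al := algebraMap M (AlgebraicClosure M)
  have key : ∀ (O : Type) [Field O] [IsAlgClosed O] (ψ : M →+* O),
      ∃ e : AlgebraicClosure M →+* O, A.map ψ = (A.map al).map e ∧
        acl (B.map ψ) = (acl (B.map al)).map e ∧
        ψ.fieldRange ⊔ acl (B.map ψ) = (al.fieldRange ⊔ acl (B.map al)).map e := fun O _ _ ψ => by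
    let _ := ψ.toAlgebra
    let e : AlgebraicClosure M →ₐ[M] O := IsAlgClosed.lift
    have he : (e : AlgebraicClosure M →+* O).comp al = ψ := e.comp_algebraMap
    have h2 : acl (B.map ψ) = (acl (B.map al)).map e := by rw [acl_map, Subfield.map_map, he]
    refine ⟨e, by rw [Subfield.map_map, he], h2, ?_⟩
    rw [Subfield.map_sup, RingHom.map_fieldRange, he, h2]
  obtain ⟨e1, a1, b1, c1⟩ := key O1 ψ1
  obtain ⟨e2, a2, b2, c2⟩ := key O2 ψ2
  rw [c1, b1, a1] at h
  rw [c2, b2, a2]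
  exact (h.of_map e1).map e2

theorem X_not_mem_acl {M Om : Type} [Field M] [Field Om] {j : M⟦X⟧ →+* Om}
    (hj : Function.Injective j) : j X ∉ acl (j.comp C).fieldRange := fun h => by
  obtain ⟨p, hp, h0⟩ := mem_acl.1 h
  obtain ⟨q, rfl⟩ := Polynomial.map_surjective _ (j.comp C).rangeRestrictField_bijective.2 p
  have e : (algebraMap (j.comp C).fieldRange Om).comp (j.comp C).rangeRestrictField = j.comp C :=
    rfl
  rw [Polynomial.aeval_def, Polynomial.eval₂_map, e, ← Polynomial.hom_eval₂,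
    Polynomial.eval₂_C_X_eq_coe] at h0
  rw [Polynomial.coe_eq_zero_iff.1 (hj (h0.trans (map_zero j).symm))] at hp
  exact hp (Polynomial.map_zero _)

variable {K M : Type} [Field K] [Field M] [Algebra ℂ K] [Algebra ℂ M] [Algebra K M]
  [IsScalarTower ℂ K M] {v : Derivation ℂ M M} {G : Set (ValuationSubring M)} {ι : Type}
  [Finite ι] {x : ι → M} {t : Unit → K}

theorem base_alg (ht : IsTranscendenceBasis ℂ t) (c : K) : algebraMap K M c ∈
    acl (adj (algebraMap ℂ M).fieldRange (range fun i => algebraMap K M (t i))) := by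
  have h := (mem_acl_map (algebraMap K M)).2 (mem_acl.2 (alg_of_basis ht c))
  change _ ∈ acl ((adj (algebraMap ℂ K).fieldRange _).map _) at h
  rwa [adj_map, ← range_comp, RingHom.map_fieldRange, ← IsScalarTower.algebraMap_eq] at h

/-- a derivation that maps the coordinate into the base field preserves the base field -/
theorem der_base (ht : IsTranscendenceBasis ℂ t)
    (hv : v (algebraMap K M (t ())) ∈ (algebraMap K M).range) (c : K) :
    v (algebraMap K M c) ∈ (algebraMap K M).range := by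
  have : CharZero M := charZero_of_injective_algebraMap (algebraMap ℂ M).injective
  have hS : ((algebraMap ℂ M).fieldRange : Set M) ∪ (range fun i => algebraMap K M (t i)) ⊆
      (algebraMap K M).fieldRange := by
    rintro _ (⟨a, rfl⟩ | ⟨i, rfl⟩)
    exacts [⟨algebraMap ℂ K a, (IsScalarTower.algebraMap_apply ℂ K M a).symm⟩, ⟨_, rfl⟩]
  refine der_mem_alg v (F := (algebraMap K M).fieldRange) (Subfield.closure_le.2 hS)
    (fun y hy => der_mem_closure v _ hS ?_ hy) ⟨c, rfl⟩ (mem_acl.1 (base_alg ht c))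
  rintro _ (⟨a, rfl⟩ | ⟨i, rfl⟩)
  · rw [v.map_algebraMap]
    exact zero_mem _
  · exact hv

/-- FS4 -/
theorem Gro.isotriv {A : Subring M} {a : ℕ} {V0 V1 : Submodule K M} (H : Gro K v A G x a V0 V1)
    (ht : IsTranscendenceBasis ℂ t) (hv : v (algebraMap K M (t ())) = 1) : Isotriv K M := by
  intro Om _ _ ψ
  have : CharZero M := charZero_of_injective_algebraMap (algebraMap ℂ M).injective
  have hvK := der_base ht (hv ▸ one_mem _)
  have hvK' : ∀ c : K, (-v) (algebraMap K M c) ∈ (algebraMap K M).range :=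
    fun c => neg_mem (hvK c)
  let Ω := AlgebraicClosure (FractionRing M⟦X⟧)
  let j : M⟦X⟧ →+* Ω := (algebraMap (FractionRing M⟦X⟧) Ω).comp (algebraMap _ _)
  have hj : Function.Injective j :=
    (algebraMap (FractionRing M⟦X⟧) Ω).injective.comp (IsFractionRing.injective _ _)
  have : CharZero Ω := charZero_of_injective_ringHom (j.comp C).injective
  have hC : IsAlgClosed ((algebraMap ℂ M).fieldRange.map (j.comp C)) := by
    rw [RingHom.map_fieldRange]
    exact IsAlgClosed.of_ringEquiv ℂ _ (RingHom.rangeRestrictFieldEquiv _)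
  have h01 : (algebraMap ℂ M).fieldRange.map (j.comp C) ≤
      acl ((algebraMap K M).fieldRange.map (j.comp C)) := by
    rintro _ ⟨_, ⟨a, rfl⟩, rfl⟩
    exact le_acl _ ⟨_, ⟨algebraMap ℂ K a, (IsScalarTower.algebraMap_apply ℂ K M a).symm⟩, rfl⟩
  have h1 : acl ((algebraMap K M).fieldRange.map (j.comp C)) ≤ acl (KF K j) := acl_mono (by
    rintro _ ⟨_, ⟨c, rfl⟩, rfl⟩
    exact mem_KF j (C_mem_Co ⟨c, rfl⟩))
  have h2 : acl ((algebraMap K M).fieldRange.map (j.comp ((Th v).comp C))) ≤ acl (KF K j) :=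
    acl_mono (by
      rintro _ ⟨_, ⟨c, rfl⟩, rfl⟩
      exact mem_KF j (Th_KS hvK (C_mem_Co ⟨c, rfl⟩)))
  have hz : AlgebraicIndependent (acl ((algebraMap K M).fieldRange.map (j.comp C)))
      fun i => j (Th v (C (algebraMap K M (t i)))) := by
    refine ind_acl (algebraicIndependent_unique_type_iff.2 fun h => X_not_mem_acl hj ?_)
    have h3 := acl_mono (F' := (j.comp C).fieldRange) (by
      rintro _ ⟨y, -, rfl⟩
      exact ⟨y, rfl⟩) (mem_acl.2 h)
    rw [Th_time v hv, map_add] at h3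
    simpa using sub_mem h3 (le_acl _ ⟨algebraMap K M (t ()), rfl⟩)
  have hL2 : acl ((algebraMap K M).fieldRange.map (j.comp ((Th v).comp C))) ≤
      acl (adj ((algebraMap ℂ M).fieldRange.map (j.comp C))
        (range fun i => j (Th v (C (algebraMap K M (t i)))))) := acl_le (by
    rintro _ ⟨_, ⟨c, rfl⟩, rfl⟩
    have h3 := (mem_acl_map (j.comp ((Th v).comp C))).2 (base_alg (M := M) ht c)
    rw [adj_map, ← range_comp] at h3
    refine acl_mono (adj_mono ?_ subset_rfl) h3
    rintro _ ⟨_, ⟨a, rfl⟩, rfl⟩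
    exact ⟨_, ⟨a, rfl⟩, congrArg j (Th_C v (v.map_algebraMap a)).symm⟩)
  have e := H.formal j hj hvK
  have h3 := spec h01 h1 h2 hC (isAlgClosed_acl _) hz
    (fun i => h2 (le_acl _ ⟨_, ⟨t i, rfl⟩, rfl⟩)) hL2 (finite_range _) (finite_range _)
    (free_KF j hj (θ := RingHom.id _) (θ' := RingHom.id _) (fun _ => rfl) (fun _ _ h => h)
      (fun _ h => h) x)
    (free_KF j hj (Th_neg_Th v) (Th_injective _) (fun _ => Th_KS hvK') x)
    (le_antisymm
      (adj_le (le_adj _ _) fun y hy => adj_mono (le_acl _) subset_rfl (e.le (mem_adj _ hy)))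
      (adj_le (le_adj _ _) fun y hy => adj_mono (le_acl _) subset_rfl (e.ge (mem_adj _ hy))))
  have e2 : adj (acl ((algebraMap K M).fieldRange.map (j.comp C)))
      (range fun i => j (RingHom.id _ (C (x i)))) =
      (j.comp C).fieldRange ⊔ acl ((algebraMap K M).fieldRange.map (j.comp C)) := by
    refine le_antisymm (adj_le le_sup_right ?_) (sup_le ?_ (le_adj _ _))
    · rintro _ ⟨i, rfl⟩
      exact (le_sup_left : (j.comp C).fieldRange ≤ _) ⟨x i, rfl⟩
    · rintro _ ⟨m, rfl⟩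
      have h : m ∈ (IntermediateField.adjoin K (range x)).toSubfield := by
        rw [H.gen]
        trivial
      rw [IntermediateField.adjoin_toSubfield] at h
      refine (Subfield.mem_comap (f := j.comp C)).1 (Subfield.closure_le.2 ?_ h)
      rintro _ (⟨c, rfl⟩ | ⟨i, rfl⟩)
      · exact le_adj _ _ (le_acl _ ⟨_, ⟨c, rfl⟩, rfl⟩)
      · exact mem_adj _ ⟨i, rfl⟩
  rw [e2] at h3
  have h4 := DO_transfer (j.comp C) ψ h3
  rwa [RingHom.map_fieldRange, RingHom.map_fieldRange] at h4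

/-- functions whose poles along `G` are bounded by the `a`-th power of the family `x` -/
def Rs (G : Set (ValuationSubring M)) (hK : ∀ O ∈ G, ∀ c : K, algebraMap K M c ∈ O) (x : ι → M)
    (h1 : ∃ i, x i = 1) (a : ℕ) : Submodule K M where
  carrier := {f | ∀ O ∈ G, ∃ i, O.valuation f ≤ O.valuation (x i) ^ a}
  zero_mem' := fun O _ => h1.imp fun i _ => by simp
  add_mem' := fun {f g} hf hg O hO => by
    rcases O.valuation.map_add' f g with h | h
    exacts [(hf O hO).imp fun _ => h.trans, (hg O hO).imp fun _ => h.trans]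
  smul_mem' := fun c f hf O hO => (hf O hO).imp fun i h => by
    rw [Algebra.smul_def, map_mul]
    exact (mul_le_of_le_one_left' ((O.valuation_le_one_iff _).2 (hK O hO c))).trans h

/-- FS4 with polynomial growth inside a stable algebra -/
theorem isotriv_of_growthA (ht : IsTranscendenceBasis ℂ t) (hv : v (algebraMap K M (t ())) = 1)
    (A : Subalgebra K M) (hA : ∀ f ∈ A, v f ∈ A) (hxA : ∀ i, x i ∈ A)
    (hK : ∀ O ∈ G, ∀ c : K, algebraMap K M c ∈ O) (hG : ∀ O ∈ G, ∀ f ∈ O, v f ∈ O)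
    (h1 : ∃ i, x i = 1) (hx : IntermediateField.adjoin K (range x) = ⊤) {C n : ℕ}
    (h : ∀ a : ℕ, ∃ V : Submodule K M, FiniteDimensional K V ∧ finrank K V ≤ C * (a + 1) ^ n ∧
      ∀ f ∈ A, (∀ O ∈ G, ∃ i, O.valuation f ≤ O.valuation (x i) ^ a) → f ∈ V) : Isotriv K M := by
  let W : ℕ → Submodule K M := fun a => A.toSubmodule ⊓ Rs G hK x h1 a
  have h2 : ∀ a, FiniteDimensional K (W a) ∧ finrank K (W a) ≤ C * (a + 1) ^ n := fun a => by
    obtain ⟨V, h2, h3, h4⟩ := h a
    have h5 : W a ≤ V := fun f hf => h4 f hf.1 hf.2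
    exact ⟨Submodule.finiteDimensional_of_le h5, (Submodule.finrank_mono h5).trans h3⟩
  have h3 : 0 < finrank K (W 0) := by
    have := (h2 0).1
    exact finrank_pos_iff_exists_ne_zero.2 ⟨⟨1, A.one_mem, fun O _ => h1.imp fun i _ => by simp⟩,
      fun e => one_ne_zero (congrArg Subtype.val e)⟩
  obtain ⟨a, -, ha⟩ := Gr.exists_lt_two (fun a => (h2 a).2) 0 h3
  exact Gro.isotriv (A := A.toSubring) (a := a) (V0 := W a) (V1 := W (a + 1))
    ⟨A.algebraMap_mem, hA, hxA, fun _ hf => hf.1, hK, hG, h1, hx, (h2 _).1, fun _ hf => hf.2,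
      fun _ hf hf' => ⟨hf, hf'⟩, ha⟩ ht hv

/-- FS4 with polynomial growth -/
theorem isotriv_of_growth (ht : IsTranscendenceBasis ℂ t) (hv : v (algebraMap K M (t ())) = 1)
    (hK : ∀ O ∈ G, ∀ c : K, algebraMap K M c ∈ O) (hG : ∀ O ∈ G, ∀ f ∈ O, v f ∈ O)
    (h1 : ∃ i, x i = 1) (hx : IntermediateField.adjoin K (range x) = ⊤) {C n : ℕ}
    (h : ∀ a : ℕ, ∃ V : Submodule K M, FiniteDimensional K V ∧ finrank K V ≤ C * (a + 1) ^ n ∧
      ∀ f, (∀ O ∈ G, ∃ i, O.valuation f ≤ O.valuation (x i) ^ a) → f ∈ V) : Isotriv K M :=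
  isotriv_of_growthA ht hv ⊤ (fun _ _ => trivial) (fun _ => trivial) hK hG h1 hx fun a =>
    (h a).imp fun _ hV => ⟨hV.1, hV.2.1, fun f _ => hV.2.2 f⟩

/-- FS4 with linear growth of the poles at all valuation rings -/
theorem isotriv_of_poles (ht : IsTranscendenceBasis ℂ t) (hv : v (algebraMap K M (t ())) = 1)
    (hK : ∀ O ∈ G, ∀ c : K, algebraMap K M c ∈ O) (hG : ∀ O ∈ G, ∀ f ∈ O, v f ∈ O)
    (h1 : ∃ i, x i = 1) (hx : IntermediateField.adjoin K (range x) = ⊤) {σ : Type} [Finite σ]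
    (g : σ → M) (c : ℕ) (h : ∀ (a : ℕ) (f : M),
      (∀ O ∈ G, ∃ i, O.valuation f ≤ O.valuation (x i) ^ a) → ∀ O : ValuationSubring M,
        (∀ c : K, algebraMap K M c ∈ O) → ∃ i, O.valuation f ≤ O.valuation (g i) ^ (c * (a + 1))) :
    Isotriv K M := by
  classical
  have : CharZero K := charZero_of_injective_algebraMap (algebraMap ℂ K).injective
  have := Fintype.ofFinite σ
  have hfg : (⊤ : IntermediateField K M).FG :=
    hx ▸ IntermediateField.fg_adjoin_of_finite (finite_range x)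
  have := IntermediateField.fg_top_iff.1 hfg
  obtain ⟨s, hs⟩ := exists_finset_isTranscendenceBasis K M
  obtain ⟨C, hC⟩ := Gr.count hs hfg g
  refine isotriv_of_growth ht hv hK hG h1 hx (C := C * (c + 1) ^ Fintype.card s)
    (n := Fintype.card s) fun a => ?_
  obtain ⟨h2, h3⟩ := hC (c * (a + 1)) (Rs G hK x h1 a) (h a)
  refine ⟨_, h2, h3.trans ?_, fun _ hf => hf⟩
  rw [mul_assoc, ← mul_pow]
  exact Nat.mul_le_mul_left _ (Nat.pow_le_pow_left (by nlinarith) _)

end Pool.Agent.Lib.MP_5c318e_ag.Fm
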